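import Pool.Agent.H15.FLX.Targets

/-!
MP_c62aed_lc, random CNFs: the value of a gate is a derived inequality (row CRX).
-/

set_option autoImplicit false

namespace Pool.Agent.H25.FLX

open Finset Pool.Agent.H15.FLX
open Pool.Agent.H53.MC (Clause Falsified SatBy Line Circuit U Viol toC scope Ins cnt H1 Covers Ker
  Err InR Bad cf tau)

theorem pf_CRX : T_CRX := by
  classical
  intro n Φ t s h ht hC i
  induction i using Nat.strong_induction_on with
  | _ i ih =>
    intro a hi ha
    rcases hC i hi with ⟨c, hc⟩ | ⟨J, hJ, hJi, hmon⟩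
    · by_cases hcΦ : c ∈ Φ
      · refine DerivesR.step i a ∅ {c} (by simp) (by simp) (by simp) (by simpa using ht)
          (by simpa using hcΦ) ?_
        intro x _ hx
        have h1 : c ∈ SatBy x := hx c (mem_singleton_self c)
        show a ≤ h i (SatBy x)
        rw [(hc (SatBy x)).1 h1, ← (hc Φ).1 hcΦ]
        exact ha
      · refine DerivesR.step i a ∅ ∅ (by simp) (by simp) (by simp) (by simp) (by simp) ?_
        intro x _ _
        show a ≤ h i (SatBy x)
        have h0 : a ≤ 0 := by rw [← (hc Φ).2 hcΦ]; exact ha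
        by_cases h1 : c ∈ SatBy x
        · rw [(hc (SatBy x)).1 h1]; linarith
        · rw [(hc (SatBy x)).2 h1]; exact h0
    · refine DerivesR.step i a (J.image fun j => (j, h j Φ)) ∅ (card_image_le.trans hJ) ?_ ?_
        (by simp) (by simp) ?_
      · intro p hp
        obtain ⟨j, hj, rfl⟩ := mem_image.1 hp
        exact hJi j hj
      · intro p hp
        obtain ⟨j, hj, rfl⟩ := mem_image.1 hp
        exact ih j (hJi j hj) (h j Φ) ((hJi j hj).trans hi) le_rfl
      · intro x hx _
        show a ≤ h i (SatBy x)
        refine ha.trans (hmon Φ (SatBy x) fun j hj => ?_)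
        exact hx (j, h j Φ) (mem_image.2 ⟨j, hj, rfl⟩)

end Pool.Agent.H25.FLX
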